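import Mathlib

/-!
Contact algebras of regular closed sets, n-ary contact, clans.
-/

set_option autoImplicit false

namespace Pool.Agent.X223.CA

open FirstOrder FirstOrder.Language

/-- The function symbols of the language of contact algebras. -/
inductive CAFn : ℕ → Type
  /-- zero -/
  | zero : CAFn 0
  /-- one -/
  | one : CAFn 0
  /-- complement -/
  | compl : CAFn 1
  /-- meet -/
  | meet : CAFn 2
  /-- join -/
  | join : CAFn 2

/-- The relation symbol of the language of contact algebras. -/
inductive CARel : ℕ → Type
  /-- contact -/
  | contact : CARel 2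

/-- The first-order language of contact algebras. -/
def caLang : FirstOrder.Language := ⟨CAFn, CARel⟩

section RC

variable (X : Type) [TopologicalSpace X]

/-- The regular closed subsets of a topological space. -/
def RC : Type := {a : Set X // a = closure (interior a)}

variable {X}

theorem regular_of_open {U : Set X} (hU : IsOpen U) :
    closure U = closure (interior (closure U)) := by
  refine subset_antisymm (closure_mono (interior_maximal subset_closure hU)) ?_
  exact closure_minimal interior_subset isClosed_closure

/-- The empty set. -/
def RC.zero : RC X := ⟨∅, by simp⟩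

/-- The whole space. -/
def RC.one : RC X := ⟨Set.univ, by simp⟩

/-- The complement `Cl (X ∖ a)`. -/
def RC.compl (a : RC X) : RC X := ⟨closure (a.1)ᶜ, regular_of_open (by
  rw [a.2]
  exact isClosed_closure.isOpen_compl)⟩

/-- The meet `Cl (Int (a ∩ b))`. -/
def RC.meet (a b : RC X) : RC X :=
  ⟨closure (interior (a.1 ∩ b.1)), regular_of_open isOpen_interior⟩

/-- The join `a ∪ b`. -/
def RC.join (a b : RC X) : RC X := ⟨a.1 ∪ b.1, by
  apply subset_antisymm
  · have h : closure (interior a.1) ∪ closure (interior b.1) ⊆
        closure (interior (a.1 ∪ b.1)) :=
      Set.union_subset (closure_mono (interior_mono Set.subset_union_left))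
        (closure_mono (interior_mono Set.subset_union_right))
    rwa [← a.2, ← b.2] at h
  · refine closure_minimal interior_subset ?_
    rw [a.2, b.2]
    exact isClosed_closure.union isClosed_closure⟩

/-- Contact of two regular closed sets. -/
def RC.contact (a b : RC X) : Prop := (a.1 ∩ b.1).Nonempty

/-- The standard contact algebra of regular closed sets, as a structure. -/
instance rcStr : caLang.Structure (RC X) where
  funMap := fun f => CAFn.casesOn (motive := fun n _ => (Fin n → RC X) → RC X) f
    (fun _ => RC.zero) (fun _ => RC.one) (fun x => (x 0).compl) (fun x => (x 0).meet (x 1))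
    (fun x => (x 0).join (x 1))
  RelMap := fun r => CARel.casesOn (motive := fun n _ => (Fin n → RC X) → Prop) r
    (fun x => (x 0).contact (x 1))

/-- The `n`-ary contact of regular closed sets. -/
def NContact {n : ℕ} (a : Fin n → RC X) : Prop := (⋂ i, (a i).1).Nonempty

/-- A clan of the contact algebra of regular closed sets: a proper grill whose members are
pairwise in contact. -/
structure IsClan (Γ : Set (RC X)) : Prop where
  one_mem : RC.one ∈ Γ
  zero_notMem : RC.zero ∉ Γ
  up : ∀ a ∈ Γ, ∀ b : RC X, a.1 ⊆ b.1 → b ∈ Γ
  grill : ∀ a b : RC X, a.join b ∈ Γ → a ∈ Γ ∨ b ∈ Γ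
  contact : ∀ a ∈ Γ, ∀ b ∈ Γ, a.contact b

variable (X) in
/-- Every clan is given by a point of the space: it has a common point. For such spaces regular
closed sets are in `n`-ary contact if and only if some clan contains all of them. -/
def RealizesClans : Prop := ∀ Γ : Set (RC X), IsClan Γ → ∃ x : X, ∀ a ∈ Γ, x ∈ a.1

end RC

end Pool.Agent.X223.CA
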