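import Pool.Agent.X223.CA.Space

/-!
Products of contact relations along an ultrafilter: coordinatewise equivalence.
-/

set_option autoImplicit false

namespace Pool.Agent.X223.CA

open FirstOrder FirstOrder.Language

/-- Types of finitely many classes. -/
def Cl : ℕ → ℕ → Type
  | 0 => fun k => Set (Fin k → Prop) × Set ((Fin k → Prop) × (Fin k → Prop))
  | n + 1 => fun k => Cl n k × Set (Cl n (k + 1))

instance finite_cl (n : ℕ) : ∀ k, Finite (Cl n k) := by
  induction n with
  | zero =>
    intro k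
    unfold Cl
    infer_instance
  | succ n ih =>
    intro k
    have h1 := ih k
    have h2 := ih (k + 1)
    unfold Cl
    infer_instance

section cls

variable {V : Type} (c : V → V → Prop)

/-- The type of an element over a tuple of sets. -/
def ty {V : Type} {k : ℕ} (x : Fin k → Set V) (v : V) : Fin k → Prop := fun j => v ∈ x j

/-- The class of a tuple of sets. -/
def cls : ∀ (n k : ℕ), (Fin k → Set V) → Cl n k
  | 0, _, x => (Set.range (ty x), {q | ∃ u v, c u v ∧ q = (ty x u, ty x v)})
  | n + 1, k, x => (cls n k x, Set.range fun y => cls n (k + 1) (Fin.snoc x y))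

variable {c} {V' : Type} {c' : V' → V' → Prop}

theorem cls_mono {n m k : ℕ} (h : m ≤ n) {x : Fin k → Set V} {x' : Fin k → Set V'}
    (hx : cls c n k x = cls c' n k x') : cls c m k x = cls c' m k x' := by
  induction n with
  | zero =>
    obtain rfl : m = 0 := by omega
    exact hx
  | succ n ih =>
    rcases Nat.lt_or_ge m (n + 1) with h1 | h1
    · exact ih (by omega) (congrArg Prod.fst hx)
    · obtain rfl : m = n + 1 := by omega
      exact hx

end cls

/-- A sequence of sets with relations. -/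
structure Dat where
  V : ℕ → Type
  c : ∀ i, V i → V i → Prop

/-- The disjoint union. -/
def Dat.Tot (D : Dat) : Type := Σ i, D.V i

/-- A slice of a subset of the disjoint union. -/
def Dat.slice (D : Dat) (A : Set D.Tot) (i : ℕ) : Set (D.V i) := {v | (⟨i, v⟩ : D.Tot) ∈ A}

/-- The contact relation at infinity. -/
def Dat.C (D : Dat) (U : Ultrafilter ℕ) (A B : Set D.Tot) : Prop :=
  (A ∩ B).Nonempty ∨ ∀ᶠ i in (U : Filter ℕ), ∃ u ∈ D.slice A i, ∃ v ∈ D.slice B i, D.c i u v

theorem term_mem {V V' α : Type} {C : Set V → Set V → Prop} {C' : Set V' → Set V' → Prop}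
    (t : caLang.Term α) (x : α → Set V) (x' : α → Set V') (v : V) (v' : V')
    (h : ∀ a, v ∈ x a ↔ v' ∈ x' a) :
    v ∈ (letI := powStr C; t.realize x) ↔ v' ∈ (letI := powStr C'; t.realize x') := by
  induction t with
  | var i => exact h i
  | func f ts ih =>
    cases f with
    | zero => exact Iff.rfl
    | one => exact Iff.rfl
    | compl => exact not_congr (ih 0)
    | meet => exact and_congr (ih 0) (ih 1)
    | join => exact or_congr (ih 0) (ih 1)

theorem good (U : Ultrafilter ℕ) {k : ℕ} (φ : caLang.BoundedFormula Empty k) :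
    ∃ n, ∀ (D D' : Dat) (x : Fin k → Set D.Tot) (x' : Fin k → Set D'.Tot),
      (∀ i, cls (D.c i) n k (fun j => D.slice (x j) i) =
        cls (D'.c i) n k (fun j => D'.slice (x' j) i)) →
      ((letI := powStr (D.C U); φ.Realize default x) ↔
        (letI := powStr (D'.C U); φ.Realize default x')) := by
  -- the transfer of points, related points and types
  have hpt : ∀ {k : ℕ} (D D' : Dat) (x : Fin k → Set D.Tot) (x' : Fin k → Set D'.Tot),
      (∀ i, cls (D.c i) 0 k (fun j => D.slice (x j) i) =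
        cls (D'.c i) 0 k (fun j => D'.slice (x' j) i)) →
      (∀ i (v : D.V i), ∃ v' : D'.V i, ∀ j, (⟨i, v⟩ : D.Tot) ∈ x j ↔ (⟨i, v'⟩ : D'.Tot) ∈ x' j) ∧
      (∀ i (u v : D.V i), D.c i u v → ∃ u' v' : D'.V i, D'.c i u' v' ∧
        (∀ j, (⟨i, u⟩ : D.Tot) ∈ x j ↔ (⟨i, u'⟩ : D'.Tot) ∈ x' j) ∧
        (∀ j, (⟨i, v⟩ : D.Tot) ∈ x j ↔ (⟨i, v'⟩ : D'.Tot) ∈ x' j)) := by
    intro k D D' x x' h
    constructor
    · intro i v
      have h1 := congrArg Prod.fst (h i)
      have h2 : ty (fun j => D.slice (x j) i) v ∈ Set.range (ty fun j => D'.slice (x' j) i) := by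
        have : ty (fun j => D.slice (x j) i) v ∈ Set.range (ty fun j => D.slice (x j) i) := ⟨v, rfl⟩
        exact (show Set.range (ty fun j => D.slice (x j) i) =
          Set.range (ty fun j => D'.slice (x' j) i) from h1) ▸ this
      obtain ⟨v', hv'⟩ := h2
      exact ⟨v', fun j => iff_of_eq (congrFun hv' j).symm⟩
    · intro i u v huv
      have h1 := congrArg Prod.snd (h i)
      have h2 : (ty (fun j => D.slice (x j) i) u, ty (fun j => D.slice (x j) i) v) ∈
          {q | ∃ u v, D'.c i u v ∧ q = (ty (fun j => D'.slice (x' j) i) u,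
            ty (fun j => D'.slice (x' j) i) v)} := by
        have : (ty (fun j => D.slice (x j) i) u, ty (fun j => D.slice (x j) i) v) ∈
          {q | ∃ u v, D.c i u v ∧ q = (ty (fun j => D.slice (x j) i) u,
            ty (fun j => D.slice (x j) i) v)} := ⟨u, v, huv, rfl⟩
        exact (show {q | ∃ u v, D.c i u v ∧ q = (ty (fun j => D.slice (x j) i) u,
            ty (fun j => D.slice (x j) i) v)} =
          {q | ∃ u v, D'.c i u v ∧ q = (ty (fun j => D'.slice (x' j) i) u,
            ty (fun j => D'.slice (x' j) i) v)} from h1) ▸ this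
      obtain ⟨u', v', huv', hq⟩ := h2
      have hq1 := congrArg Prod.fst hq
      have hq2 := congrArg Prod.snd hq
      exact ⟨u', v', huv', fun j => iff_of_eq (congrFun hq1 j), fun j => iff_of_eq (congrFun hq2 j)⟩
  -- equality of terms
  have heq : ∀ {k : ℕ} (t₁ t₂ : caLang.Term (Empty ⊕ Fin k)) (D D' : Dat)
      (x : Fin k → Set D.Tot) (x' : Fin k → Set D'.Tot),
      (∀ i, cls (D.c i) 0 k (fun j => D.slice (x j) i) =
        cls (D'.c i) 0 k (fun j => D'.slice (x' j) i)) →
      (letI := powStr (D.C U); t₁.realize (Sum.elim default x) = t₂.realize (Sum.elim default x)) →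
      (letI := powStr (D'.C U);
        t₁.realize (Sum.elim default x') = t₂.realize (Sum.elim default x')) := by
    intro k t₁ t₂ D D' x x' h hx
    let := powStr (D.C U)
    let := powStr (D'.C U)
    ext ⟨i, v'⟩
    obtain ⟨v, hv⟩ := (hpt D' D x' x fun i => (h i).symm).1 i v'
    have hv' : ∀ a : Empty ⊕ Fin k, (⟨i, v'⟩ : D'.Tot) ∈ (Sum.elim default x' : _ → Set D'.Tot) a ↔
        (⟨i, v⟩ : D.Tot) ∈ (Sum.elim default x : _ → Set D.Tot) a := by
      rintro (a | a)
      · exact a.elim
      · exact hv a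
    have h1 := term_mem (C := D'.C U) (C' := D.C U) t₁ _ _ _ _ hv'
    have h2 := term_mem (C := D'.C U) (C' := D.C U) t₂ _ _ _ _ hv'
    have h3 : (⟨i, v⟩ : D.Tot) ∈ t₁.realize (Sum.elim default x : _ → Set D.Tot) ↔
        (⟨i, v⟩ : D.Tot) ∈ t₂.realize (Sum.elim default x : _ → Set D.Tot) := by
      exact iff_of_eq (congrArg (fun S => (⟨i, v⟩ : D.Tot) ∈ S) hx)
    exact h1.trans (h3.trans h2.symm)
  -- contact of terms
  have hco : ∀ {k : ℕ} (t₁ t₂ : caLang.Term (Empty ⊕ Fin k)) (D D' : Dat)
      (x : Fin k → Set D.Tot) (x' : Fin k → Set D'.Tot),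
      (∀ i, cls (D.c i) 0 k (fun j => D.slice (x j) i) =
        cls (D'.c i) 0 k (fun j => D'.slice (x' j) i)) →
      (letI := powStr (D.C U);
        D.C U (t₁.realize (Sum.elim default x)) (t₂.realize (Sum.elim default x))) →
      (letI := powStr (D'.C U);
        D'.C U (t₁.realize (Sum.elim default x')) (t₂.realize (Sum.elim default x'))) := by
    intro k t₁ t₂ D D' x x' h hx
    let := powStr (D.C U)
    let := powStr (D'.C U)
    have hext : ∀ (i : ℕ) (v : D.V i) (v' : D'.V i),
        (∀ j, (⟨i, v⟩ : D.Tot) ∈ x j ↔ (⟨i, v'⟩ : D'.Tot) ∈ x' j) → ∀ a : Empty ⊕ Fin k,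
        (⟨i, v⟩ : D.Tot) ∈ (Sum.elim default x : _ → Set D.Tot) a ↔
          (⟨i, v'⟩ : D'.Tot) ∈ (Sum.elim default x' : _ → Set D'.Tot) a := by
      rintro i v v' hv (a | a)
      · exact a.elim
      · exact hv a
    rcases hx with ⟨⟨i, v⟩, h1, h2⟩ | hx
    · left
      obtain ⟨v', hv'⟩ := (hpt D D' x x' h).1 i v
      exact ⟨⟨i, v'⟩, (term_mem (C := D.C U) (C' := D'.C U) t₁ _ _ _ _ (hext i v v' hv')).1 h1,
        (term_mem (C := D.C U) (C' := D'.C U) t₂ _ _ _ _ (hext i v v' hv')).1 h2⟩
    · right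
      refine hx.mono fun i hi => ?_
      obtain ⟨u, hu, v, hv, huv⟩ := hi
      obtain ⟨u', v', huv', hu', hv'⟩ := (hpt D D' x x' h).2 i u v huv
      exact ⟨u', (term_mem (C := D.C U) (C' := D'.C U) t₁ _ _ _ _ (hext i u u' hu')).1 hu,
        v', (term_mem (C := D.C U) (C' := D'.C U) t₂ _ _ _ _ (hext i v v' hv')).1 hv, huv'⟩
  induction φ with
  | falsum => exact ⟨0, fun D D' x x' _ => Iff.rfl⟩
  | equal t₁ t₂ =>
    refine ⟨0, fun D D' x x' h => ⟨fun hx => ?_, fun hx => ?_⟩⟩
    · exact heq t₁ t₂ D D' x x' h hx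
    · exact heq t₁ t₂ D' D x' x (fun i => (h i).symm) hx
  | rel r ts =>
    cases r with
    | contact =>
      refine ⟨0, fun D D' x x' h => ⟨fun hx => ?_, fun hx => ?_⟩⟩
      · exact hco (ts 0) (ts 1) D D' x x' h hx
      · exact hco (ts 0) (ts 1) D' D x' x (fun i => (h i).symm) hx
  | imp φ ψ ih ih' =>
    obtain ⟨n, hn⟩ := ih
    obtain ⟨m, hm⟩ := ih'
    refine ⟨max n m, fun D D' x x' h => ?_⟩
    exact imp_congr (hn D D' x x' fun i => cls_mono (le_max_left n m) (h i))
      (hm D D' x x' fun i => cls_mono (le_max_right n m) (h i))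
  | @all k φ ih =>
    obtain ⟨n, hn⟩ := ih
    have key : ∀ (D D' : Dat) (x : Fin k → Set D.Tot) (x' : Fin k → Set D'.Tot),
        (∀ i, cls (D.c i) (n + 1) k (fun j => D.slice (x j) i) =
          cls (D'.c i) (n + 1) k (fun j => D'.slice (x' j) i)) → ∀ y : Set D.Tot,
        ∃ y' : Set D'.Tot, ∀ i,
          cls (D.c i) n (k + 1) (fun j => D.slice ((Fin.snoc x y : Fin (k + 1) → _) j) i) =
          cls (D'.c i) n (k + 1) (fun j => D'.slice ((Fin.snoc x' y' : Fin (k + 1) → _) j) i) := by
      intro D D' x x' h y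
      have h1 : ∀ i, ∃ y' : Set (D'.V i),
          cls (D'.c i) n (k + 1) (Fin.snoc (fun j => D'.slice (x' j) i) y') =
          cls (D.c i) n (k + 1) (Fin.snoc (fun j => D.slice (x j) i) (D.slice y i)) := by
        intro i
        have h2 := congrArg Prod.snd (h i)
        have h3 : cls (D.c i) n (k + 1) (Fin.snoc (fun j => D.slice (x j) i) (D.slice y i)) ∈
            Set.range fun y => cls (D'.c i) n (k + 1) (Fin.snoc (fun j => D'.slice (x' j) i) y) := by
          have : cls (D.c i) n (k + 1) (Fin.snoc (fun j => D.slice (x j) i) (D.slice y i)) ∈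
            Set.range fun y => cls (D.c i) n (k + 1) (Fin.snoc (fun j => D.slice (x j) i) y) :=
              ⟨_, rfl⟩
          exact (show (Set.range fun y => cls (D.c i) n (k + 1)
            (Fin.snoc (fun j => D.slice (x j) i) y)) =
            Set.range fun y => cls (D'.c i) n (k + 1) (Fin.snoc (fun j => D'.slice (x' j) i) y)
              from h2) ▸ this
        obtain ⟨y', hy'⟩ := h3
        exact ⟨y', hy'⟩
      choose z hz using h1
      refine ⟨{q | q.2 ∈ z q.1}, fun i => ?_⟩
      have e1 : (fun j => D.slice ((Fin.snoc x y : Fin (k + 1) → _) j) i) =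
          (Fin.snoc (fun j => D.slice (x j) i) (D.slice y i) : Fin (k + 1) → _) := by
        ext j
        induction j using Fin.lastCases with
        | last => simp only [Fin.snoc_last]
        | cast j => simp only [Fin.snoc_castSucc]
      have e2 : (fun j => D'.slice ((Fin.snoc x' {q : D'.Tot | q.2 ∈ z q.1} :
          Fin (k + 1) → _) j) i) =
          (Fin.snoc (fun j => D'.slice (x' j) i) (z i) : Fin (k + 1) → _) := by
        ext j
        induction j using Fin.lastCases with
        | last =>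
          simp only [Fin.snoc_last]
          rfl
        | cast j => simp only [Fin.snoc_castSucc]
      rw [e1, e2]
      exact (hz i).symm
    refine ⟨n + 1, fun D D' x x' h => ⟨fun hx y' => ?_, fun hx y => ?_⟩⟩
    · obtain ⟨y, hy⟩ := key D' D x' x (fun i => (h i).symm) y'
      exact (hn D' D _ _ hy).2 (hx y)
    · obtain ⟨y', hy'⟩ := key D D' x x' h y
      exact (hn D D' _ _ hy').2 (hx y')

end Pool.Agent.X223.CA
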