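import Pool.Agent.X223.CA.Game

/-!
The ternary contact is not first-order definable, even for spaces that realize all clans.
-/

set_option autoImplicit false

namespace Pool.Agent.X223.CA

open FirstOrder FirstOrder.Language Filter

section fam

variable {V : Type} (C : Set V → Set V → Prop)

/-- All nonprincipal clans of a contact relation. -/
def fam : Set (Set (Set V)) := {Γ | IsGr Γ ∧ ∀ A ∈ Γ, ∀ B ∈ Γ, C A B}

theorem fam_gr : ∀ Γ ∈ fam C, IsGr Γ := fun _ h => h.1

variable {C}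

theorem CF_eq (h4 : ∀ A B, (A ∩ B).Nonempty → C A B) (hrep : ∀ A B, C A B → CF (fam C) A B) :
    CF (fam C) = C := by
  ext A B
  constructor
  · rintro (h | ⟨Γ, hΓ, hA, hB⟩)
    · exact h4 A B h
    · exact hΓ.2 A hA B hB
  · exact hrep A B

theorem realizes (h4 : ∀ A B, (A ∩ B).Nonempty → C A B) :
    @RealizesClans _ (topo (fam_gr C)) := by
  let := topo (fam_gr C)
  intro Γ' hΓ'
  let H := fam_gr C
  let Γ : Set (Set V) := {A | ofSet H A ∈ Γ'}
  have hmem : ∀ a : RC (Pt (fam C)), a ∈ Γ' → tr H a ∈ Γ := by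
    intro a ha
    show ofSet H (tr H a) ∈ Γ'
    rw [ofSet_tr]
    exact ha
  have hup : ∀ A ∈ Γ, ∀ B, A ⊆ B → B ∈ Γ := by
    intro A hA B hAB
    exact hΓ'.up _ hA _ (hh_mono H hAB)
  by_cases hnp : ∀ v, ({v}ᶜ : Set V) ∈ Γ
  · have hΓ : Γ ∈ fam C := by
      refine ⟨⟨?_, ?_, hup, ?_, hnp⟩, ?_⟩
      · have h1 : ofSet H Set.univ = RC.one := Subtype.ext (hh_univ H)
        show ofSet H Set.univ ∈ Γ'
        rw [h1]
        exact hΓ'.one_mem
      · have h1 : ofSet H ∅ = RC.zero := Subtype.ext (hh_empty H)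
        show ofSet H ∅ ∉ Γ'
        rw [h1]
        exact hΓ'.zero_notMem
      · intro A B hAB
        have h1 : ofSet H (A ∪ B) = (ofSet H A).join (ofSet H B) := Subtype.ext (hh_union H A B)
        have h2 : ofSet H (A ∪ B) ∈ Γ' := hAB
        rw [h1] at h2
        exact hΓ'.grill _ _ h2
      · intro A hA B hB
        have h1 := hΓ'.contact _ hA _ hB
        rw [contact_iff H] at h1
        rcases h1 with h1 | ⟨Δ, hΔ, h2, h3⟩
        · exact h4 _ _ h1
        · exact hΔ.2 _ h2 _ h3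
    refine ⟨Pt.gr ⟨Γ, hΓ⟩, fun a ha => ?_⟩
    rw [eq_hh H a]
    exact hmem a ha
  · push Not at hnp
    obtain ⟨v, hv⟩ := hnp
    refine ⟨Pt.pt v, fun a ha => ?_⟩
    rw [eq_hh H a]
    show v ∈ tr H a
    by_contra hva
    refine hv (hup _ (hmem a ha) _ ?_)
    intro w hw hwv
    rw [Set.mem_singleton_iff] at hwv
    exact hva (hwv ▸ hw)

theorem ncontact_iff {n : ℕ} (A : Fin n → Set V) :
    @NContact _ (topo (fam_gr C)) n (fun i => ofSet (fam_gr C) (A i)) ↔
      (⋂ i, A i).Nonempty ∨ ∃ Γ ∈ fam C, ∀ i, A i ∈ Γ := by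
  let := topo (fam_gr C)
  constructor
  · rintro ⟨x, hx⟩
    rw [Set.mem_iInter] at hx
    rcases x with v | Γ
    · left
      exact ⟨v, Set.mem_iInter.2 fun i => hx i⟩
    · right
      exact ⟨Γ.1, Γ.2, fun i => hx i⟩
  · rintro (⟨v, hv⟩ | ⟨Γ, hΓ, h⟩)
    · exact ⟨Pt.pt v, Set.mem_iInter.2 fun i => (Set.mem_iInter.1 hv i : v ∈ A i)⟩
    · exact ⟨Pt.gr ⟨Γ, hΓ⟩, Set.mem_iInter.2 fun i => h i⟩

theorem clan_of_ultra {ι : Type} [Nonempty ι] (p : ι → Ultrafilter V)
    (hnp : ∀ k v, ({v}ᶜ : Set V) ∈ p k)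
    (hc : ∀ k l, ∀ X ∈ p k, ∀ Y ∈ p l, C X Y) : {X | ∃ k, X ∈ p k} ∈ fam C := by
  obtain ⟨k₀⟩ : Nonempty ι := inferInstance
  refine ⟨⟨⟨k₀, univ_mem⟩, ?_, ?_, ?_, fun v => ⟨k₀, hnp k₀ v⟩⟩, ?_⟩
  · rintro ⟨k, hk⟩
    exact (p k).empty_notMem hk
  · rintro A ⟨k, hk⟩ B hAB
    exact ⟨k, mem_of_superset hk hAB⟩
  · rintro A B ⟨k, hk⟩
    rcases Ultrafilter.union_mem_iff.1 hk with h | h
    · exact Or.inl ⟨k, h⟩
    · exact Or.inr ⟨k, h⟩
  · rintro A ⟨k, hk⟩ B ⟨l, hl⟩
    exact hc k l A hk B hl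

theorem gr_iUnion {Γ : Set (Set V)} (hΓ : IsGr Γ) {ι : Type} [Finite ι] (A : ι → Set V)
    (h : (⋃ i, A i) ∈ Γ) : ∃ i, A i ∈ Γ := by
  classical
  have := Fintype.ofFinite ι
  have key : ∀ s : Finset ι, (⋃ i ∈ s, A i) ∈ Γ → ∃ i, A i ∈ Γ := by
    intro s
    induction s using Finset.induction_on with
    | empty =>
      intro h
      simp only [Finset.notMem_empty, Set.iUnion_of_empty, Set.iUnion_empty] at h
      exact absurd h hΓ.empty_notMem
    | insert a s _ ih =>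
      intro h
      rw [Finset.set_biUnion_insert] at h
      rcases hΓ.grill _ _ h with h | h
      · exact ⟨a, h⟩
      · exact ih h
  refine key Finset.univ ?_
  simpa using h

end fam

section dat

variable {D : Dat} {U : Ultrafilter ℕ}

theorem dat_h4 (A B : Set D.Tot) (h : (A ∩ B).Nonempty) : D.C U A B := Or.inl h

theorem dat_rep (hU : ∀ i, ∀ᶠ j in (U : Filter ℕ), j ≠ i)
    (hsymm : ∀ i (u v : D.V i), D.c i u v → D.c i v u) (A B : Set D.Tot) (h : D.C U A B) :
    CF (fam (D.C U)) A B := by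
  classical
  rcases h with h | h
  · exact Or.inl h
  · right
    obtain ⟨i₀, u₀, hu₀, v₀, hv₀, huv₀⟩ := h.exists
    let g : ℕ → D.Tot := fun i => if hi : ∃ u ∈ D.slice A i, ∃ v ∈ D.slice B i, D.c i u v then
      ⟨i, hi.choose⟩ else ⟨i₀, u₀⟩
    let g' : ℕ → D.Tot := fun i => if hi : ∃ u ∈ D.slice A i, ∃ v ∈ D.slice B i, D.c i u v then
      ⟨i, hi.choose_spec.2.choose⟩ else ⟨i₀, v₀⟩
    have hg : ∀ᶠ i in (U : Filter ℕ), ∃ u v, g i = ⟨i, u⟩ ∧ g' i = ⟨i, v⟩ ∧ u ∈ D.slice A i ∧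
        v ∈ D.slice B i ∧ D.c i u v := by
      refine h.mono fun i hi => ?_
      refine ⟨hi.choose, hi.choose_spec.2.choose, dif_pos hi, dif_pos hi, hi.choose_spec.1,
        hi.choose_spec.2.choose_spec.1, hi.choose_spec.2.choose_spec.2⟩
    let p : Bool → Ultrafilter D.Tot := fun b => if b then U.map g else U.map g'
    have hp1 : p true = U.map g := rfl
    have hp2 : p false = U.map g' := rfl
    refine ⟨{X | ∃ k, X ∈ p k}, clan_of_ultra p ?_ ?_, ⟨true, ?_⟩, ⟨false, ?_⟩⟩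
    · intro k w
      have h1 := hU w.1
      cases k with
      | true =>
        rw [hp1, Ultrafilter.mem_map]
        filter_upwards [hg, h1] with i hi hi'
        obtain ⟨u, v, h2, h3, -⟩ := hi
        show g i ∈ ({w}ᶜ : Set D.Tot)
        rw [h2]
        intro h4
        have h5 : (⟨i, u⟩ : Σ i, D.V i) = w := h4
        exact hi' (congrArg Sigma.fst h5)
      | false =>
        rw [hp2, Ultrafilter.mem_map]
        filter_upwards [hg, h1] with i hi hi'
        obtain ⟨u, v, h2, h3, -⟩ := hi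
        show g' i ∈ ({w}ᶜ : Set D.Tot)
        rw [h3]
        intro h4
        have h5 : (⟨i, v⟩ : Σ i, D.V i) = w := h4
        exact hi' (congrArg Sigma.fst h5)
    · intro k l X hX Y hY
      cases k with
      | true =>
        cases l with
        | true => exact Or.inl ((p true).nonempty_of_mem (inter_mem hX hY))
        | false =>
          right
          rw [hp1, Ultrafilter.mem_map] at hX
          rw [hp2, Ultrafilter.mem_map] at hY
          filter_upwards [hg, hX, hY] with i hi hi1 hi2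
          obtain ⟨u, v, h2, h3, -, -, h4⟩ := hi
          refine ⟨u, ?_, v, ?_, h4⟩
          · have h5 : g i ∈ X := hi1
            rw [h2] at h5
            exact h5
          · have h5 : g' i ∈ Y := hi2
            rw [h3] at h5
            exact h5
      | false =>
        cases l with
        | true =>
          right
          rw [hp2, Ultrafilter.mem_map] at hX
          rw [hp1, Ultrafilter.mem_map] at hY
          filter_upwards [hg, hX, hY] with i hi hi1 hi2
          obtain ⟨u, v, h2, h3, -, -, h4⟩ := hi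
          refine ⟨v, ?_, u, ?_, hsymm i u v h4⟩
          · have h5 : g' i ∈ X := hi1
            rw [h3] at h5
            exact h5
          · have h5 : g i ∈ Y := hi2
            rw [h2] at h5
            exact h5
        | false => exact Or.inl ((p false).nonempty_of_mem (inter_mem hX hY))
    · rw [hp1, Ultrafilter.mem_map]
      filter_upwards [hg] with i hi
      obtain ⟨u, v, h2, h3, h4, -⟩ := hi
      show g i ∈ A
      rw [h2]
      exact h4
    · rw [hp2, Ultrafilter.mem_map]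
      filter_upwards [hg] with i hi
      obtain ⟨u, v, h2, h3, -, h4, -⟩ := hi
      show g' i ∈ B
      rw [h3]
      exact h4

end dat

/-! ### Shift graphs -/

/-- The pairs `i < j` of numbers below `N`. -/
abbrev Pr (N : ℕ) : Type := {p : Fin N × Fin N // p.1 < p.2}

/-- Adjacency in the shift graph. -/
def sh {N : ℕ} (p q : Pr N) : Prop := p.1.2 = q.1.1 ∨ q.1.2 = p.1.1

theorem sh_symm {N : ℕ} {p q : Pr N} (h : sh p q) : sh q p := Or.symm h

theorem no_triangle {N : ℕ} (p q r : Pr N) (h1 : sh p q) (h2 : sh q r) (h3 : sh p r) : False := by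
  obtain ⟨⟨⟨a, ha⟩, ⟨b, hb⟩⟩, h⟩ := p
  obtain ⟨⟨⟨a', ha'⟩, ⟨b', hb'⟩⟩, h'⟩ := q
  obtain ⟨⟨⟨a'', ha''⟩, ⟨b'', hb''⟩⟩, h''⟩ := r
  unfold sh at h1 h2 h3
  simp only [Fin.mk_lt_mk, Fin.mk.injEq] at h h' h'' h1 h2 h3
  omega

theorem card_le {N : ℕ} {κ : Type} [Finite κ] (f : Pr N → κ) (hf : ∀ p q, sh p q → f p ≠ f q) :
    N ≤ Nat.card (Set κ) := by
  have hinj : Function.Injective fun i : Fin N => {c : κ | ∃ p : Pr N, p.1.1 = i ∧ f p = c} := by
    have key : ∀ i j : Fin N, i < j → {c : κ | ∃ p : Pr N, p.1.1 = i ∧ f p = c} ≠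
        {c : κ | ∃ p : Pr N, p.1.1 = j ∧ f p = c} := by
      intro i j hij heq
      have h1 : f ⟨(i, j), hij⟩ ∈ {c : κ | ∃ p : Pr N, p.1.1 = i ∧ f p = c} := ⟨⟨(i, j), hij⟩, rfl, rfl⟩
      rw [heq] at h1
      obtain ⟨p, hp, hpf⟩ := h1
      exact hf ⟨(i, j), hij⟩ p (Or.inl hp.symm) hpf.symm
    intro i j hij
    rcases lt_trichotomy i j with h | h | h
    · exact absurd hij (key i j h)
    · exact h
    · exact absurd hij.symm (key j i h)
  have := Nat.card_le_card_of_injective _ hinj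
  simpa using this

/-- The vertices of the tripartite graph. -/
abbrev Vt (N : ℕ) : Type := Fin 3 × Pr N

/-- Adjacency or equality in the tripartite graph. -/
def cN (N : ℕ) (u v : Vt N) : Prop := u = v ∨ (u.1 ≠ v.1 ∧ sh u.2 v.2)

/-- The sequence of graphs for a sequence of sizes. -/
def datOf (s : ℕ → ℕ) : Dat := ⟨fun i => Vt (s i), fun i => cN (s i)⟩

/-- The parts of the disjoint union. -/
def part (s : ℕ → ℕ) (t : Fin 3) : Set (datOf s).Tot := {q | (q.2 : Vt (s q.1)).1 = t}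

/-- The tuple of sets. -/
def tup (s : ℕ → ℕ) (n : ℕ) (j : Fin n) : Set (datOf s).Tot :=
  if h : (j : ℕ) < 3 then part s ⟨j, h⟩ else Set.univ

/-- The tuple of sets in one graph. -/
def tupN (N n : ℕ) (j : Fin n) : Set (Vt N) :=
  if h : (j : ℕ) < 3 then {v | v.1 = ⟨j, h⟩} else Set.univ

theorem slice_tup (s : ℕ → ℕ) (n : ℕ) (i : ℕ) :
    (fun j => (datOf s).slice (tup s n j) i) = tupN (s i) n := by
  funext j
  unfold tup tupN
  split_ifs
  · rfl
  · rfl

section infinite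

variable {s : ℕ → ℕ} {U : Ultrafilter ℕ}

/-- Independence ideal: sets of vertices that are uniformly finitely colourable. -/
def J (s : ℕ → ℕ) (U : Ultrafilter ℕ) (X : Set (Σ i, Pr (s i))) : Prop :=
  ∃ (κ : Type) (_ : Finite κ), ∀ᶠ i in (U : Filter ℕ), ∃ f : Pr (s i) → κ,
    ∀ p q, ⟨i, p⟩ ∈ X → ⟨i, q⟩ ∈ X → sh p q → f p ≠ f q

/-- The dual filter. -/
def FJ (s : ℕ → ℕ) (U : Ultrafilter ℕ) : Filter (Σ i, Pr (s i)) :=
  Filter.comk (J s U) ⟨PUnit, inferInstance, Eventually.of_forall fun i =>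
    ⟨fun _ => PUnit.unit, fun p q hp => absurd hp (Set.notMem_empty _)⟩⟩
    (by
      rintro Y ⟨κ, hκ, h⟩ X hXY
      refine ⟨κ, hκ, h.mono fun i hi => ?_⟩
      obtain ⟨f, hf⟩ := hi
      exact ⟨f, fun p q hp hq => hf p q (hXY hp) (hXY hq)⟩)
    (by
      classical
      rintro X ⟨κ, hκ, h⟩ Y ⟨κ', hκ', h'⟩
      refine ⟨κ ⊕ κ', inferInstance, ?_⟩
      filter_upwards [h, h'] with i hi hi'
      obtain ⟨f, hf⟩ := hi
      obtain ⟨f', hf'⟩ := hi'
      refine ⟨fun p => if (⟨i, p⟩ : Σ i, Pr (s i)) ∈ X then Sum.inl (f p) else Sum.inr (f' p), ?_⟩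
      intro p q hp hq hpq
      beta_reduce
      split_ifs with h1 h2 h2
      · exact fun h => hf p q h1 h2 hpq (Sum.inl.inj h)
      · exact fun h => absurd h (by simp)
      · exact fun h => absurd h (by simp)
      · exact fun h => hf' p q (hp.resolve_left h1) (hq.resolve_left h2) hpq (Sum.inr.inj h))

theorem FJ_neBot (hs : ∀ M, ∀ᶠ i in (U : Filter ℕ), M < s i) : (FJ s U).NeBot := by
  rw [Filter.neBot_iff]
  intro hbot
  have h0 : (∅ : Set (Σ i, Pr (s i))) ∈ FJ s U := by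
    rw [hbot]
    exact Filter.mem_bot
  have h0' : J s U ∅ᶜ := h0
  rw [Set.compl_empty] at h0'
  obtain ⟨κ, hκ, h⟩ := h0'
  obtain ⟨i, ⟨f, hf⟩, hi⟩ := (h.and (hs (Nat.card (Set κ)))).exists
  have := card_le f fun p q => hf p q (Set.mem_univ _) (Set.mem_univ _)
  omega

theorem contact_infinity (hU : ∀ i, ∀ᶠ j in (U : Filter ℕ), j ≠ i)
    (hs : ∀ M, ∀ᶠ i in (U : Filter ℕ), M < s i) (n : ℕ) :
    ∃ Γ ∈ fam ((datOf s).C U), ∀ j, tup s n j ∈ Γ := by
  classical
  have := FJ_neBot hs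
  let p₀ : Ultrafilter (Σ i, Pr (s i)) := Ultrafilter.of (FJ s U)
  have hp₀ : ∀ X, J s U X → Xᶜ ∈ p₀ := by
    intro X hX
    refine Ultrafilter.of_le (FJ s U) ?_
    show J s U Xᶜᶜ
    rw [compl_compl]
    exact hX
  have hp₀' : ∀ X ∈ p₀, ∀ᶠ i in (U : Filter ℕ), ∃ p q, (⟨i, p⟩ : Σ i, Pr (s i)) ∈ X ∧
      (⟨i, q⟩ : Σ i, Pr (s i)) ∈ X ∧ sh p q := by
    intro X hX
    by_contra hcon
    rw [Filter.not_eventually] at hcon
    have hJ : J s U X := by
      refine ⟨PUnit, inferInstance, (Ultrafilter.frequently_iff_eventually.1 hcon).mono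
        fun i hi => ⟨fun _ => PUnit.unit, fun p q hp hq hpq _ => hi ⟨p, q, hp, hq, hpq⟩⟩⟩
    have h1 := inter_mem hX (hp₀ X hJ)
    rw [Set.inter_compl_self] at h1
    exact p₀.empty_notMem h1
  let e : Fin 3 → (Σ i, Pr (s i)) → (datOf s).Tot := fun t z => ⟨z.1, (t, z.2)⟩
  let p : Fin 3 → Ultrafilter (datOf s).Tot := fun t => p₀.map (e t)
  refine ⟨{X | ∃ k, X ∈ p k}, clan_of_ultra p ?_ ?_, ?_⟩
  · intro t w
    show e t ⁻¹' {w}ᶜ ∈ p₀
    have hJ : J s U {z | z.1 = w.1} := by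
      refine ⟨PUnit, inferInstance, (hU w.1).mono fun i hi =>
        ⟨fun _ => PUnit.unit, fun a b ha => absurd ha hi⟩⟩
    refine mem_of_superset (hp₀ _ hJ) ?_
    intro z hz h
    have h5 : (⟨z.1, (t, z.2)⟩ : Σ i, Vt (s i)) = w := h
    exact hz (congrArg Sigma.fst h5)
  · intro t l X hX Y hY
    have hZ : e t ⁻¹' X ∩ e l ⁻¹' Y ∈ p₀ := inter_mem hX hY
    by_cases htl : t = l
    · subst htl
      left
      obtain ⟨z, hz1, hz2⟩ := p₀.nonempty_of_mem hZ
      exact ⟨e t z, hz1, hz2⟩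
    · right
      refine (hp₀' _ hZ).mono fun i hi => ?_
      obtain ⟨a, b, ha, hb, hab⟩ := hi
      exact ⟨(t, a), ha.1, (l, b), hb.2, Or.inr ⟨htl, hab⟩⟩
  · intro j
    unfold tup
    split_ifs with h
    · refine ⟨⟨j, h⟩, ?_⟩
      show e ⟨j, h⟩ ⁻¹' part s ⟨j, h⟩ ∈ p₀
      have : e ⟨j, h⟩ ⁻¹' part s ⟨j, h⟩ = Set.univ := by
        ext z
        simp only [Set.mem_univ, iff_true]
        rfl
      rw [this]
      exact univ_mem
    · exact ⟨0, univ_mem⟩

end infinite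

theorem no_contact_finite {U : Ultrafilter ℕ} (N : ℕ) {n : ℕ} (hn : 3 ≤ n) :
    ¬ ((⋂ j, tup (fun _ => N) n j).Nonempty ∨
      ∃ Γ ∈ fam ((datOf fun _ => N).C U), ∀ j, tup (fun _ => N) n j ∈ Γ) := by
  have hpart : ∀ t : Fin 3, tup (fun _ => N) n ⟨t, by omega⟩ = part (fun _ => N) t := by
    intro t
    unfold tup
    rw [dif_pos t.2]
  rintro (⟨w, hw⟩ | ⟨Γ, hΓ, h⟩)
  · rw [Set.mem_iInter] at hw
    have h0 : w ∈ part (fun _ => N) 0 := by
      rw [← hpart 0]
      exact hw _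
    have h1 : w ∈ part (fun _ => N) 1 := by
      rw [← hpart 1]
      exact hw _
    have h0' : (w.2 : Vt N).1 = 0 := h0
    have h1' : (w.2 : Vt N).1 = 1 := h1
    rw [h0'] at h1'
    exact absurd h1' (by decide)
  · let col : Fin 3 → Pr N → Set (datOf fun _ => N).Tot := fun t a => {q | q.2 = ((t, a) : Vt N)}
    have hcol : ∀ t, ∃ a, col t a ∈ Γ := by
      intro t
      refine gr_iUnion hΓ.1 (col t) ?_
      have h1 : (⋃ a, col t a) = part (fun _ => N) t := by
        ext q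
        rw [Set.mem_iUnion]
        constructor
        · rintro ⟨a, ha⟩
          have ha' : q.2 = ((t, a) : Vt N) := ha
          show (q.2 : Vt N).1 = t
          rw [ha']
        · intro hq
          have hq' : (q.2 : Vt N).1 = t := hq
          refine ⟨(q.2 : Vt N).2, ?_⟩
          show q.2 = ((t, (q.2 : Vt N).2) : Vt N)
          rw [← hq']
          rfl
      rw [h1, ← hpart t]
      exact h _
    choose a ha using hcol
    have hadj : ∀ t l, t ≠ l → sh (a t) (a l) := by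
      intro t l htl
      rcases hΓ.2 _ (ha t) _ (ha l) with ⟨q, h1, h2⟩ | h1
      · have h1' : q.2 = ((t, a t) : Vt N) := h1
        have h2' : q.2 = ((l, a l) : Vt N) := h2
        rw [h1'] at h2'
        exact absurd (congrArg Prod.fst h2') htl
      · obtain ⟨i, u, hu, v, hv, huv⟩ := h1.exists
        have hu' : u = ((t, a t) : Vt N) := hu
        have hv' : v = ((l, a l) : Vt N) := hv
        rw [hu', hv'] at huv
        rcases huv with huv | huv
        · exact absurd (congrArg Prod.fst huv) htl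
        · exact huv.2
    exact no_triangle (a 0) (a 1) (a 2) (hadj 0 1 (by decide)) (hadj 1 2 (by decide))
      (hadj 0 2 (by decide))

theorem cN_symm (N : ℕ) (u v : Vt N) (h : cN N u v) : cN N v u := by
  rcases h with h | ⟨h1, h2⟩
  · exact Or.inl h.symm
  · exact Or.inr ⟨h1.symm, sh_symm h2⟩

theorem main {n : ℕ} (hn : 3 ≤ n) (φ : caLang.Formula (Fin n)) :
    ∃ (X : Type) (_ : TopologicalSpace X), Nonempty X ∧ RealizesClans X ∧
      ∃ a : Fin n → RC X, ¬ (φ.Realize a ↔ NContact a) := by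
  classical
  let U : Ultrafilter ℕ := Filter.hyperfilter ℕ
  have hU0 : (U : Filter ℕ) ≤ cofinite := Filter.hyperfilter_le_cofinite
  have hU : ∀ i, ∀ᶠ j in (U : Filter ℕ), j ≠ i := by
    intro i
    exact hU0 (Set.finite_singleton i).compl_mem_cofinite
  have hUM : ∀ M, ∀ᶠ j in (U : Filter ℕ), M < j := by
    intro M
    have h1 : (U : Filter ℕ) ≤ atTop := by
      rw [← Nat.cofinite_eq_atTop]
      exact hU0
    exact h1 (Ioi_mem_atTop M)
  let φ' : caLang.BoundedFormula Empty (n + 0) := BoundedFormula.relabel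
    (fun i : Fin n => (Sum.inr i : Empty ⊕ Fin n)) (φ : caLang.BoundedFormula (Fin n) 0)
  obtain ⟨m, hm⟩ := good U φ'
  let κ : ℕ → Cl m (n + 0) := fun N => cls (cN N) m (n + 0) (tupN N (n + 0))
  obtain ⟨κ₀, hκ₀⟩ := Ultrafilter.eq_pure_of_finite (U.map κ)
  have hκ : ∀ᶠ N in (U : Filter ℕ), κ N = κ₀ := by
    have h1 : {κ₀} ∈ U.map κ := by
      rw [hκ₀]
      exact Ultrafilter.mem_pure.2 rfl
    exact h1
  obtain ⟨N₀, hN₀, hN₀'⟩ := (hκ.and (hUM 1)).exists
  let s : ℕ → ℕ := fun i => if κ i = κ₀ then i else N₀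
  have hs : ∀ i, κ (s i) = κ₀ := by
    intro i
    show κ (if κ i = κ₀ then i else N₀) = κ₀
    split_ifs with h
    · exact h
    · exact hN₀
  have hsM : ∀ M, ∀ᶠ i in (U : Filter ℕ), M < s i := by
    intro M
    filter_upwards [hκ, hUM M] with i hi hi'
    show M < if κ i = κ₀ then i else N₀
    rw [if_pos hi]
    exact hi'
  have hequiv := hm (datOf s) (datOf fun _ => N₀) (tup s (n + 0)) (tup (fun _ => N₀) (n + 0))
    (fun i => by
      rw [slice_tup, slice_tup]
      exact (hs i).trans hN₀.symm)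
  by_contra hcon
  push Not at hcon
  have key : ∀ s : ℕ → ℕ, (∃ i, 1 < s i) → ((letI := powStr ((datOf s).C U); φ'.Realize default (tup s (n + 0))) ↔
      ((⋂ j, tup s n j).Nonempty ∨ ∃ Γ ∈ fam ((datOf s).C U), ∀ j, tup s n j ∈ Γ)) := by
    intro s hne
    let 𝓕 := fam ((datOf s).C U)
    let H := fam_gr ((datOf s).C U)
    have hne' : Nonempty (Pt 𝓕) := by
      obtain ⟨i, hi⟩ := hne
      exact ⟨Pt.pt ⟨i, ((0, ⟨(⟨0, by omega⟩, ⟨1, hi⟩), by simp [Fin.lt_def]⟩) : Vt (s i))⟩⟩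
    have hCF : CF 𝓕 = (datOf s).C U := CF_eq dat_h4 (dat_rep hU fun i u v h => cN_symm _ u v h)
    have h1 := hcon (Pt 𝓕) (topo H) hne' (realizes dat_h4) fun j => ofSet H (tup s n j)
    have h2 := realize_formula H φ (fun j => ofSet H (tup s n j)) default
    rw [hCF] at h2
    rw [← ncontact_iff, ← h1]
    refine Iff.trans ?_ h2.symm
    let := powStr ((datOf s).C U)
    show (BoundedFormula.relabel (fun i : Fin n => (Sum.inr i : Empty ⊕ Fin n))
      (φ : caLang.BoundedFormula (Fin n) 0)).Realize default (tup s (n + 0)) ↔ _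
    rw [BoundedFormula.realize_relabel]
    refine iff_of_eq ?_
    congr 1
    exact Subsingleton.elim _ _
  have h1 := (key s (hsM 1).exists).2 (Or.inr (contact_infinity hU hsM n))
  have h2 := (key (fun _ => N₀) ⟨0, hN₀'⟩).1 (hequiv.1 h1)
  exact no_contact_finite N₀ hn h2

end Pool.Agent.X223.CA
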