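import Pool.Agent.X223.CA.Defs

/-!
The contact algebra of all subsets of a set, and its topological representation.
-/

set_option autoImplicit false

namespace Pool.Agent.X223.CA

open FirstOrder FirstOrder.Language

/-- The powerset structure with a contact relation. -/
@[reducible] def powStr {V : Type} (C : Set V → Set V → Prop) : caLang.Structure (Set V) where
  funMap := fun f => CAFn.casesOn (motive := fun n _ => (Fin n → Set V) → Set V) f
    (fun _ => ∅) (fun _ => Set.univ) (fun x => (x 0)ᶜ) (fun x => x 0 ∩ x 1)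
    (fun x => x 0 ∪ x 1)
  RelMap := fun r => CARel.casesOn (motive := fun n _ => (Fin n → Set V) → Prop) r
    (fun x => C (x 0) (x 1))

/-- A nonprincipal grill. -/
structure IsGr {V : Type} (Γ : Set (Set V)) : Prop where
  univ_mem : Set.univ ∈ Γ
  empty_notMem : ∅ ∉ Γ
  up : ∀ A ∈ Γ, ∀ B, A ⊆ B → B ∈ Γ
  grill : ∀ A B, A ∪ B ∈ Γ → A ∈ Γ ∨ B ∈ Γ
  nonprincipal : ∀ v, ({v}ᶜ : Set V) ∈ Γ

/-- The points: the elements of `V` and the grills of the family. -/
inductive Pt {V : Type} (𝓕 : Set (Set (Set V))) : Type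
  /-- an element of `V` -/
  | pt (v : V) : Pt 𝓕
  /-- a grill of the family -/
  | gr (Γ : 𝓕) : Pt 𝓕

section space

variable {V : Type} {𝓕 : Set (Set (Set V))}

/-- The basic closed sets. -/
def hh (𝓕 : Set (Set (Set V))) (A : Set V) : Set (Pt 𝓕) :=
  {x | Pt.casesOn x (fun v => v ∈ A) (fun Γ : 𝓕 => A ∈ Γ.1)}

theorem inl_mem (A : Set V) (v : V) : (Pt.pt v : Pt 𝓕) ∈ hh 𝓕 A ↔ v ∈ A := Iff.rfl

theorem inr_mem (A : Set V) (Γ : 𝓕) : (Pt.gr Γ : Pt 𝓕) ∈ hh 𝓕 A ↔ A ∈ Γ.1 := Iff.rfl

variable (H : ∀ Γ ∈ 𝓕, IsGr Γ)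

include H

theorem hh_union (A B : Set V) : hh 𝓕 (A ∪ B) = hh 𝓕 A ∪ hh 𝓕 B := by
  ext x
  rcases x with v | Γ
  · exact Iff.rfl
  · constructor
    · intro h
      exact (H Γ.1 Γ.2).grill A B h
    · rintro (h | h)
      · exact (H Γ.1 Γ.2).up _ h _ Set.subset_union_left
      · exact (H Γ.1 Γ.2).up _ h _ Set.subset_union_right

theorem hh_mono {A B : Set V} (h : A ⊆ B) : hh 𝓕 A ⊆ hh 𝓕 B := by
  rintro (v | Γ) hx
  · exact h hx
  · exact (H Γ.1 Γ.2).up _ hx _ h

theorem hh_empty : hh 𝓕 ∅ = ∅ := by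
  ext x
  rcases x with v | Γ
  · exact Iff.rfl
  · simp only [Set.mem_empty_iff_false, iff_false]
    exact (H Γ.1 Γ.2).empty_notMem

theorem hh_univ : hh 𝓕 Set.univ = Set.univ := by
  ext x
  rcases x with v | Γ
  · simp [inl_mem]
  · simp only [Set.mem_univ, iff_true]
    exact (H Γ.1 Γ.2).univ_mem

/-- The topology. -/
@[reducible] def topo : TopologicalSpace (Pt 𝓕) where
  IsOpen U := ∀ x ∈ U, ∃ A, x ∉ hh 𝓕 A ∧ (hh 𝓕 A)ᶜ ⊆ U
  isOpen_univ := fun x _ => ⟨∅, by rw [hh_empty H]; exact id, Set.subset_univ _⟩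
  isOpen_inter := by
    rintro U W hU hW x ⟨hxU, hxW⟩
    obtain ⟨A, hA, hA'⟩ := hU x hxU
    obtain ⟨B, hB, hB'⟩ := hW x hxW
    refine ⟨A ∪ B, ?_, ?_⟩
    · rw [hh_union H]
      rintro (h | h)
      · exact hA h
      · exact hB h
    · rw [hh_union H]
      intro y hy
      exact ⟨hA' fun h => hy (Or.inl h), hB' fun h => hy (Or.inr h)⟩
  isOpen_sUnion := by
    rintro S hS x ⟨U, hU, hx⟩
    obtain ⟨A, hA, hA'⟩ := hS U hU x hx
    exact ⟨A, hA, hA'.trans (Set.subset_sUnion_of_mem hU)⟩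

theorem isClosed_hh (A : Set V) : @IsClosed _ (topo H) (hh 𝓕 A) := by
  let := topo H
  rw [← isOpen_compl_iff]
  intro x hx
  exact ⟨A, hx, subset_rfl⟩

theorem isOpen_inl (v : V) : @IsOpen _ (topo H) ({Pt.pt v} : Set (Pt 𝓕)) := by
  let := topo H
  intro x hx
  have hx' : x = Pt.pt v := hx
  subst hx'
  refine ⟨{v}ᶜ, ?_, ?_⟩
  · rw [inl_mem]
    simp
  · rintro (w | Γ) hy
    · have : ¬ w ∈ ({v}ᶜ : Set V) := hy
      simp only [Set.mem_compl_iff, Set.mem_singleton_iff, not_not] at this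
      rw [this]
      rfl
    · exact absurd ((H Γ.1 Γ.2).nonprincipal v) hy

theorem closure_image (A : Set V) :
    @closure _ (topo H) ((fun v => (Pt.pt v : Pt 𝓕)) '' A) = hh 𝓕 A := by
  let := topo H
  apply subset_antisymm
  · refine closure_minimal ?_ (isClosed_hh H A)
    rintro _ ⟨v, hv, rfl⟩
    exact hv
  · intro x hx
    rw [mem_closure_iff]
    intro U hU hxU
    obtain ⟨B, hB, hB'⟩ := hU x hxU
    by_contra hne
    apply hB
    refine hh_mono H ?_ hx
    intro v hv
    by_contra hvB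
    exact hne ⟨Pt.pt v, hB' hvB, v, hv, rfl⟩

theorem inl_mem_closure (S : Set (Pt 𝓕)) (v : V) :
    (Pt.pt v : Pt 𝓕) ∈ @closure _ (topo H) S ↔ Pt.pt v ∈ S := by
  let := topo H
  constructor
  · intro h
    rw [mem_closure_iff] at h
    obtain ⟨y, hy, hyS⟩ := h {Pt.pt v} (isOpen_inl H v) rfl
    have : y = Pt.pt v := hy
    rwa [← this]
  · intro h
    exact subset_closure h

theorem inl_mem_interior (S : Set (Pt 𝓕)) (v : V) :
    (Pt.pt v : Pt 𝓕) ∈ @interior _ (topo H) S ↔ Pt.pt v ∈ S := by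
  let := topo H
  constructor
  · intro h
    exact interior_subset h
  · intro h
    rw [mem_interior]
    exact ⟨{Pt.pt v}, by
      intro y hy
      have : y = Pt.pt v := hy
      rwa [this], isOpen_inl H v, rfl⟩

theorem closure_open (U : Set (Pt 𝓕)) (hU : @IsOpen _ (topo H) U) :
    @closure _ (topo H) U = hh 𝓕 {v | (Pt.pt v : Pt 𝓕) ∈ U} := by
  let := topo H
  have hd : Dense ((fun v => (Pt.pt v : Pt 𝓕)) '' Set.univ) := by
    rw [dense_iff_closure_eq, closure_image H, hh_univ H]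
  have h1 : closure U = closure (U ∩ ((fun v => (Pt.pt v : Pt 𝓕)) '' Set.univ)) := by
    apply subset_antisymm
    · exact closure_minimal (hd.open_subset_closure_inter hU) isClosed_closure
    · exact closure_mono Set.inter_subset_left
  rw [h1, ← closure_image H]
  congr 1
  ext x
  constructor
  · rintro ⟨hx, v, -, rfl⟩
    exact ⟨v, hx, rfl⟩
  · rintro ⟨v, hv, rfl⟩
    exact ⟨hv, v, Set.mem_univ v, rfl⟩

/-- The trace of a regular closed set on `V`. -/
def tr (a : @RC _ (topo H)) : Set V := {v | (Pt.pt v : Pt 𝓕) ∈ a.1}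

theorem eq_hh (a : @RC _ (topo H)) : a.1 = hh 𝓕 (tr H a) := by
  let := topo H
  have h1 := a.2
  have h2 := closure_open H (interior a.1) isOpen_interior
  have h3 : {v | (Pt.pt v : Pt 𝓕) ∈ interior a.1} = tr H a := by
    ext v
    exact inl_mem_interior H _ v
  rw [h3] at h2
  rw [← h2]
  exact h1

/-- The regular closed set with a given trace. -/
def ofSet (A : Set V) : @RC _ (topo H) := ⟨hh 𝓕 A, by
  let := topo H
  rw [← closure_image H]
  refine regular_of_open ?_
  rw [← Set.biUnion_of_singleton A, Set.image_iUnion₂]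
  refine isOpen_iUnion fun v => isOpen_iUnion fun _ => ?_
  rw [Set.image_singleton]
  exact isOpen_inl H v⟩

theorem tr_ofSet (A : Set V) : tr H (ofSet H A) = A := rfl

theorem ofSet_tr (a : @RC _ (topo H)) : ofSet H (tr H a) = a :=
  Subtype.ext (eq_hh H a).symm

omit H in
/-- The contact relation of the family. -/
def CF (𝓕 : Set (Set (Set V))) (A B : Set V) : Prop :=
  (A ∩ B).Nonempty ∨ ∃ Γ ∈ 𝓕, A ∈ Γ ∧ B ∈ Γ

theorem contact_iff (a b : @RC _ (topo H)) :
    @RC.contact _ (topo H) a b ↔ CF 𝓕 (tr H a) (tr H b) := by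
  let := topo H
  unfold RC.contact
  rw [eq_hh H a, eq_hh H b]
  constructor
  · rintro ⟨v | Γ, h1, h2⟩
    · exact Or.inl ⟨v, h1, h2⟩
    · exact Or.inr ⟨Γ.1, Γ.2, h1, h2⟩
  · rintro (⟨v, h1, h2⟩ | ⟨Γ, hΓ, h1, h2⟩)
    · exact ⟨Pt.pt v, h1, h2⟩
    · exact ⟨Pt.gr ⟨Γ, hΓ⟩, h1, h2⟩

theorem tr_compl (a : @RC _ (topo H)) : tr H (@RC.compl _ (topo H) a) = (tr H a)ᶜ := by
  let := topo H
  ext v
  exact inl_mem_closure H _ v

theorem tr_meet (a b : @RC _ (topo H)) :
    tr H (@RC.meet _ (topo H) a b) = tr H a ∩ tr H b := by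
  let := topo H
  ext v
  exact (inl_mem_closure H _ v).trans (inl_mem_interior H _ v)

theorem tr_join (a b : @RC _ (topo H)) :
    tr H (@RC.join _ (topo H) a b) = tr H a ∪ tr H b := rfl

theorem realize_term {α : Type} (t : caLang.Term α) (x : α → @RC _ (topo H)) :
    letI := topo H
    tr H (t.realize x) = (letI := powStr (CF 𝓕); t.realize fun i => tr H (x i)) := by
  let := topo H
  let := powStr (CF 𝓕)
  induction t with
  | var i => rfl
  | func f ts ih =>
    cases f with
    | zero => rfl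
    | one => rfl
    | compl =>
      show tr H (RC.compl ((ts 0).realize x)) = ((ts 0).realize fun i => tr H (x i))ᶜ
      rw [tr_compl H, ih 0]
    | meet =>
      show tr H (RC.meet ((ts 0).realize x) ((ts 1).realize x)) =
        ((ts 0).realize fun i => tr H (x i)) ∩ ((ts 1).realize fun i => tr H (x i))
      rw [tr_meet H, ih 0, ih 1]
    | join =>
      show tr H (RC.join ((ts 0).realize x) ((ts 1).realize x)) =
        ((ts 0).realize fun i => tr H (x i)) ∪ ((ts 1).realize fun i => tr H (x i))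
      rw [tr_join H, ih 0, ih 1]

theorem tr_injective : Function.Injective (tr H) := fun a b h => by
  rw [← ofSet_tr H a, ← ofSet_tr H b, h]

theorem realize_formula {α : Type} {n : ℕ} (φ : caLang.BoundedFormula α n)
    (x : α → @RC _ (topo H)) (y : Fin n → @RC _ (topo H)) :
    (letI := topo H; φ.Realize x y) ↔
      (letI := powStr (CF 𝓕); φ.Realize (fun i => tr H (x i)) fun i => tr H (y i)) := by
  let := topo H
  let := powStr (CF 𝓕)
  have hel : ∀ {n : ℕ} (y : Fin n → RC (Pt 𝓕)), (fun i => tr H (Sum.elim x y i)) =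
      Sum.elim (fun i => tr H (x i)) fun i => tr H (y i) := by
    intro n y
    ext i
    rcases i with i | i <;> rfl
  induction φ with
  | falsum => exact Iff.rfl
  | equal t₁ t₂ =>
    show t₁.realize (Sum.elim x y) = t₂.realize (Sum.elim x y) ↔
      t₁.realize (Sum.elim (fun i => tr H (x i)) fun i => tr H (y i)) =
        t₂.realize (Sum.elim (fun i => tr H (x i)) fun i => tr H (y i))
    rw [← hel, ← (tr_injective H).eq_iff, realize_term H, realize_term H]
  | rel r ts =>
    cases r with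
    | contact =>
      show RC.contact ((ts 0).realize (Sum.elim x y)) ((ts 1).realize (Sum.elim x y)) ↔
        CF 𝓕 ((ts 0).realize (Sum.elim (fun i => tr H (x i)) fun i => tr H (y i)))
          ((ts 1).realize (Sum.elim (fun i => tr H (x i)) fun i => tr H (y i)))
      rw [← hel, contact_iff H, realize_term H, realize_term H]
  | imp _ _ ih ih' => exact imp_congr (ih y) (ih' y)
  | @all n φ ih =>
    show (∀ a, φ.Realize x (Fin.snoc y a)) ↔
      ∀ A, φ.Realize (fun i => tr H (x i)) (Fin.snoc (fun i => tr H (y i)) A)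
    have hsn : ∀ a, (fun i => tr H ((Fin.snoc y a : Fin (n + 1) → RC (Pt 𝓕)) i)) =
        (Fin.snoc (fun i => tr H (y i)) (tr H a) : Fin (n + 1) → Set V) := by
      intro a
      ext i
      induction i using Fin.lastCases with
      | last => simp only [Fin.snoc_last]
      | cast i => simp only [Fin.snoc_castSucc]
    constructor
    · intro h A
      have h1 := (ih (Fin.snoc y (ofSet H A))).1 (h (ofSet H A))
      rw [hsn, tr_ofSet H] at h1
      exact h1
    · intro h a
      refine (ih (Fin.snoc y a)).2 ?_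
      rw [hsn]
      exact h (tr H a)

end space

end Pool.Agent.X223.CA
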